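import Mathlib

/-!
# Finsler metrics on coordinate spaces: fundamental tensor, Cartan tensor, spray, Berwald and
Landsberg curvature

The definitions are those of the problem file, in coordinates. A metric is a function `F x y` of the
point `x` and the tangent vector `y`.
-/

set_option autoImplicit false

open scoped ContDiff

namespace Pool.Agent.Y519.UN

noncomputable section

variable {n : ℕ}

/-- partial derivative in the direction of the `i`-th coordinate -/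
def pd (i : Fin n) (h : (Fin n → ℝ) → ℝ) (y : Fin n → ℝ) : ℝ := fderiv ℝ h y (Pi.single i 1)

/-- the fundamental tensor `g_ij = (1/2) ∂²(F²) / ∂y^i ∂y^j` -/
def fund (F : (Fin n → ℝ) → (Fin n → ℝ) → ℝ) (x y : Fin n → ℝ) (i j : Fin n) : ℝ :=
  1 / 2 * pd i (pd j fun u => F x u ^ 2) y

/-- the Cartan tensor `C_ijk = (1/2) ∂g_ij / ∂y^k` -/
def cart (F : (Fin n → ℝ) → (Fin n → ℝ) → ℝ) (x y : Fin n → ℝ) (i j k : Fin n) : ℝ :=
  1 / 2 * pd k (fun u => fund F x u i j) y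

/-- the spray coefficients `G^i = (1/4) g^{il} ([F²]_{x^k y^l} y^k - [F²]_{x^l})` -/
def spr (F : (Fin n → ℝ) → (Fin n → ℝ) → ℝ) (x y : Fin n → ℝ) : Fin n → ℝ :=
  (Matrix.of (fund F x y))⁻¹.mulVec fun l =>
    1 / 4 * (∑ k, pd k (fun z => pd l (fun u => F z u ^ 2) y) x * y k
      - pd l (fun z => F z y ^ 2) x)

/-- the Berwald curvature `B^i_jkl = ∂³G^i / ∂y^j ∂y^k ∂y^l` -/
def ber (F : (Fin n → ℝ) → (Fin n → ℝ) → ℝ) (x y : Fin n → ℝ) (i j k l : Fin n) : ℝ :=
  pd j (pd k (pd l fun u => spr F x u i)) y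

/-- the Landsberg curvature `L_jkl = -(1/2) g_im y^m B^i_jkl` -/
def lan (F : (Fin n → ℝ) → (Fin n → ℝ) → ℝ) (x y : Fin n → ℝ) (j k l : Fin n) : ℝ :=
  -(1 / 2) * ∑ i, ∑ m, fund F x y i m * y m * ber F x y i j k l

/-- `g_y(v, v)` -/
def nsq (F : (Fin n → ℝ) → (Fin n → ℝ) → ℝ) (x y v : Fin n → ℝ) : ℝ :=
  ∑ i, ∑ j, fund F x y i j * v i * v j

/-- smooth Finsler metrics on the whole space: smooth outside the zero section, positive, positively
homogeneous, with positive definite fundamental tensor -/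
structure IsFinsler (F : (Fin n → ℝ) → (Fin n → ℝ) → ℝ) : Prop where
  smooth : ContDiffOn ℝ ∞ (fun p : (Fin n → ℝ) × (Fin n → ℝ) => F p.1 p.2) {p | p.2 ≠ 0}
  pos : ∀ x y, y ≠ 0 → 0 < F x y
  hom : ∀ x y (t : ℝ), 0 < t → F x (t • y) = t * F x y
  convex : ∀ x y, y ≠ 0 → ∀ v, v ≠ 0 → 0 < nsq F x y v

end

end Pool.Agent.Y519.UN
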