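import Pool.Agent.W668.Uni.Asm2
import Pool.Agent.W668.Uni.Lift

/-!
# Isochronous annuli for arbitrarily small damping

This is `Pool.Agent.W722.Uni.iso_proof` with an arbitrary bound `d` for the function `f`.
-/

set_option autoImplicit false

open Set MeasureTheory Pool.Agent.W668.Uni Pool.Agent.W722.Uni
open scoped ContDiff Topology

namespace Pool.Agent.Y519.UN

noncomputable section

/-- the analytic input of the starting repository -/
theorem sol_main : P_sol :=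
  Pool.Agent.W589.UniSol.sol
    (Pool.Agent.W668.Uni.N3P Pool.Agent.W758.Uni.khat Pool.Agent.W668.Uni.Lift.lift)
    Pool.Agent.W995.Uni.smo Pool.Agent.W396.UniEta.uni_eta Pool.Agent.W668.Uni.injP
    Pool.Agent.W766.UniLead.t_lead (Pool.Agent.W596.Uni.f0data Pool.Agent.W174.Uni.sph)
    Pool.Agent.W131.Uni.main Pool.Agent.W803.Uni.jet_main Pool.Agent.W668.Uni.wfnP
    Pool.Agent.W148.Uni.uni_ift

/-- For every `d > 0` there is an odd smooth function `f` bounded by `d` with `f'(0) ≠ 0` such that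
the solutions of `p'' + p = f(p) p'` with `p(0) = y ∈ (1/2, 3/4)`, `p'(0) = 0` all have the same
period. -/
theorem iso_small (d : ℝ) (hd : 0 < d) :
    ∃ (f : ℝ → ℝ) (τ : ℝ), ContDiff ℝ ∞ f ∧ (∀ p, f (-p) = -f p) ∧
      (∀ p, |f p| ≤ 1 / 100) ∧ (∀ p, |f p| ≤ d) ∧ deriv f 0 ≠ 0 ∧ |τ - Real.pi| ≤ 1 / 200 ∧
      ∀ y ∈ Ioo (1 / 2 : ℝ) (3 / 4), Quarter f y τ := by
  obtain ⟨⟨O⟩, ⟨EM⟩⟩ := Pool.Agent.W287.UniOps.uni_ops
  obtain ⟨M, e₀, η, hη, e₂, he₂, he₂0, hf⟩ := sol_main O EM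
  set ε : ℝ := min (e₂ / 2) (min (1 / (100 * (|M| + 1))) (d / (|M| + 1))) with hεdef
  have hM1 : 0 < |M| + 1 := by positivity
  have hε : 0 < ε := lt_min (by linarith) (lt_min (by positivity) (by positivity))
  have hε1 : ε < e₂ := lt_of_le_of_lt (min_le_left _ _) (by linarith)
  have hε2 : ε ≤ 1 / (100 * (|M| + 1)) := (min_le_right _ _).trans (min_le_left _ _)
  have hε2' : ε ≤ d / (|M| + 1) := (min_le_right _ _).trans (min_le_right _ _)
  have hε3 : ε * (|M| + 1) ≤ 1 / 100 := by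
    calc ε * (|M| + 1) ≤ 1 / (100 * (|M| + 1)) * (|M| + 1) := by gcongr
      _ = 1 / 100 := by field_simp
  have hε3' : ε * (|M| + 1) ≤ d := by
    calc ε * (|M| + 1) ≤ d / (|M| + 1) * (|M| + 1) := by gcongr
      _ = d := by field_simp
  have hε4 : ε ≤ 1 / 100 := by
    have : ε * 1 ≤ ε * (|M| + 1) := by
      have := abs_nonneg M
      gcongr
      linarith
    linarith
  obtain ⟨f, hfM, hfn, hfs, hfm⟩ := hf ε hε hε1
  have hfB0 : ‖f‖ ≤ |M| + 1 := by linarith [le_abs_self M]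
  have hfB : ε * ‖f‖ ≤ 1 / 100 := (by gcongr : ε * ‖f‖ ≤ ε * (|M| + 1)).trans hε3
  have hfB' : ε * ‖f‖ ≤ d := (by gcongr : ε * ‖f‖ ≤ ε * (|M| + 1)).trans hε3'
  have hdom : ((ε, O.lift f) : ℝ × Y) ∈ dom e₀ M := by
    refine ⟨?_, ?_⟩
    · show |ε| < e₀
      rw [abs_of_pos hε]
      linarith
    · exact lt_of_le_of_lt (O.lift_norm f) hfM
  refine ⟨isoF ε f, Real.pi + ε ^ 2 * (Real.pi / 24), isoF_smooth ε f hfn hfs,
    isoF_odd ε f hfn, abs_isoF_le ε f _ hε.le hfB, abs_isoF_le ε f _ hε.le hfB', ?_, ?_, ?_⟩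
  · have he : isoF ε f =ᶠ[𝓝 0] fun x => ε * x := by
      have : Ioo (-(1 / 4) : ℝ) (1 / 4) ∈ 𝓝 (0 : ℝ) := Ioo_mem_nhds (by norm_num) (by norm_num)
      filter_upwards [this] with x hx
      exact isoF_near ε f hfn (abs_le.2 ⟨hx.1.le, hx.2.le⟩)
    rw [he.deriv_eq]
    have : deriv (fun x : ℝ => ε * x) 0 = ε := by
      have := ((hasDerivAt_id (0 : ℝ)).const_mul ε).deriv
      simpa using this
    rw [this]
    exact hε.ne'
  · have h1 : Real.pi + ε ^ 2 * (Real.pi / 24) - Real.pi = ε ^ 2 * (Real.pi / 24) := by ring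
    rw [h1, abs_of_nonneg (by positivity)]
    have h2 : ε ^ 2 ≤ (1 / 100) ^ 2 := by gcongr
    have h3 : Real.pi / 24 ≤ 4 / 24 := by linarith [Real.pi_lt_four]
    calc ε ^ 2 * (Real.pi / 24) ≤ (1 / 100) ^ 2 * (4 / 24) := by gcongr
      _ ≤ 1 / 200 := by norm_num
  · intro y hy
    have hy0 : 0 ≤ y := by linarith [hy.1]
    have hy1 : y ≤ 1 := by linarith [hy.2]
    obtain ⟨ht, hT⟩ := uni_time O M e₀ η hη (ε, O.lift f) hdom y hy0 hy1
    have hF : ∀ s, 0 ≤ s → s ≤ Real.pi / 2 →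
        isoF ε f (y * Real.cos s) = ε * evY (O.lift f) y s := by
      intro s hs0 hs1
      have hc0 : 0 ≤ Real.cos s := Real.cos_nonneg_of_mem_Icc ⟨by linarith [Real.pi_pos], hs1⟩
      have hc1 : Real.cos s ≤ 1 := Real.cos_le_one s
      have h1 : y * Real.cos s ≤ 3 / 4 := by
        calc y * Real.cos s ≤ y * 1 := by gcongr
          _ ≤ 3 / 4 := by linarith [hy.2]
      rw [isoF_pos ε f (by positivity), isoCut_one h1, mul_one,
        O.lift_ev f y s hy0 hy1 hs0 hs1]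
    have hcont : ∀ h : Y, ContinuousOn (fun t => evY h y t) (Icc 0 (Real.pi / 2)) := by
      intro h
      have h1 : Continuous (fun t : ℝ => evY h y t) :=
        (continuous_evY h).comp (continuous_const.prodMk continuous_id)
      exact h1.continuousOn
    refine ⟨fun t => evY (rho ε (η (ε, O.lift f))) y t,
      fun t => evY (rho (-ε) (η (-ε, O.lift f))) y t, hcont _, hcont _, ?_, ?_⟩
    · intro t htm
      obtain ⟨h1, h2, h3, h4⟩ := ht t htm.1 htm.2
      have hint : ∀ r : ℝ → ℝ, (∫ s in (0 : ℝ)..t, Real.sin s ^ 2 *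
          isoF ε f (y * Real.cos s) * r s) = ∫ s in (0 : ℝ)..t, Real.sin s ^ 2 *
          (ε * evY (O.lift f) y s) * r s := by
        intro r
        refine intervalIntegral.integral_congr fun s hs => ?_
        rw [uIcc_of_le htm.1] at hs
        rw [hF s hs.1 (hs.2.trans htm.2)]
      refine ⟨lt_of_lt_of_le (by norm_num) h1, lt_of_lt_of_le (by norm_num) h2, ?_, ?_⟩
      · rw [hint]
        exact h3
      · rw [hint]
        exact h4
    · rw [hT, hfm y hy.1.le hy1]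

end

end Pool.Agent.Y519.UN
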