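import Pool.Agent.Y519.UN.Pull

/-!
# The metric on the plane
-/

set_option autoImplicit false

open Set MeasureTheory Filter
open scoped ContDiff Topology

namespace Pool.Agent.Y519.UN

open Pool.Agent.W668.Uni Pool.Agent.W668.Uni.Geo

noncomputable section

variable {f Φ : ℝ → ℝ} {L : ℝ} {S T : QT → ℝ} {F : V2 → V2 → ℝ}

theorem spr_fun (F : V2 → V2 → ℝ) (x : V2) (i : Fin 2) :
    (fun u => spr F x u i) = fun u => GF F x u i := by
  funext u
  rw [spr_eq]

theorem ber_eq (F : V2 → V2 → ℝ) (x y : V2) (i j k l : Fin 2) :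
    ber F x y i j k l = fderiv ℝ (fun w₂ => fderiv ℝ (fun w₁ => fderiv ℝ (fun u => GF F x u i) w₁
      (Pi.single l 1)) w₂ (Pi.single k 1)) y (Pi.single j 1) := by
  unfold ber
  rw [spr_fun]
  rfl

theorem Uni.ber (h : Uni f Φ L S T F) {W : Set VV} {ϑ : VV → ℝ} (Lc : Loc S T F W ϑ) {q : VV}
    (hq : q ∈ W) (i j k l : Fin 2) :
    Pool.Agent.Y519.UN.ber F q.1 q.2 i j k l
      = mu f S T i (q.1, ϑ q) * al T l (q.1, ϑ q) * al T k (q.1, ϑ q) * al T j (q.1, ϑ q)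
        / F q.1 q.2 := by
  have hD : ∀ q ∈ W, De S T (q.1, ϑ q) ≠ 0 := fun q _ => (h.de _).ne'
  rw [ber_eq, Lc.GF3 h.fam hD (G := GF F) (fun q hq i => Lc.GF_eq h.fam hq (hD q hq) i) hq]
  simp only [av_single]

/-- `g_y(v,v) = ⟨α,v⟩² + ⟨β,v⟩²` -/
theorem Uni.nsq (h : Uni f Φ L S T F) {W : Set VV} {ϑ : VV → ℝ} (Lc : Loc S T F W ϑ) {q : VV}
    (hq : q ∈ W) (v : V2) :
    Pool.Agent.Y519.UN.nsq F q.1 q.2 v = av S v (q.1, ϑ q) ^ 2 + av T v (q.1, ϑ q) ^ 2 := by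
  unfold Pool.Agent.Y519.UN.nsq
  simp only [fund_loc h.fam Lc hq, Fin.sum_univ_two]
  unfold av
  ring

theorem Uni.finsler (h : Uni f Φ L S T F) : IsFinsler F := by
  refine ⟨?_, ?_, h.hom, ?_⟩
  · intro p hp
    obtain ⟨W, ϑ, hm, Lc⟩ := h.loc p.1 p.2 hp
    exact ((Lc.F_smooth h.fam.S_smooth).contDiffAt (Lc.opn.mem_nhds hm)).contDiffWithinAt
  · intro x y hy
    obtain ⟨W, ϑ, hm, Lc⟩ := h.loc x y hy
    exact Lc.pos _ hm
  · intro x y hy v hv
    obtain ⟨W, ϑ, hm, Lc⟩ := h.loc x y hy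
    have e := h.nsq Lc hm v
    simp only at e
    rw [e]
    by_contra hneg
    push Not at hneg
    have p1 : 0 ≤ av S v (x, ϑ (x, y)) ^ 2 := sq_nonneg _
    have p2 : 0 ≤ av T v (x, ϑ (x, y)) ^ 2 := sq_nonneg _
    have h1 : av S v (x, ϑ (x, y)) = 0 := by
      have : av S v (x, ϑ (x, y)) ^ 2 = 0 := by linarith
      exact pow_eq_zero_iff (two_ne_zero) |>.1 this
    have h2 : av T v (x, ϑ (x, y)) = 0 := by
      have : av T v (x, ϑ (x, y)) ^ 2 = 0 := by linarith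
      exact pow_eq_zero_iff (two_ne_zero) |>.1 this
    have hD := (h.de (x, ϑ (x, y))).ne'
    unfold av at h1 h2
    have e0 : De S T (x, ϑ (x, y)) * v 0 = 0 := by
      unfold De
      linear_combination al T 1 (x, ϑ (x, y)) * h1 - al S 1 (x, ϑ (x, y)) * h2
    have e1 : De S T (x, ϑ (x, y)) * v 1 = 0 := by
      unfold De
      linear_combination al S 0 (x, ϑ (x, y)) * h2 - al T 0 (x, ϑ (x, y)) * h1
    apply hv
    funext i
    obtain rfl | rfl : i = 0 ∨ i = 1 := by fin_cases i <;> simp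
    · exact (mul_eq_zero.1 e0).resolve_left hD
    · exact (mul_eq_zero.1 e1).resolve_left hD

theorem Uni.lan (h : Uni f Φ L S T F) (x y : V2) (hy : y ≠ 0) (j k l : Fin 2) :
    Pool.Agent.Y519.UN.lan F x y j k l = 0 := by
  obtain ⟨W, ϑ, hm, Lc⟩ := h.loc x y hy
  obtain ⟨c1, c2, c3, c4⟩ := dual_rel (S := S) (T := T) (x, ϑ (x, y)) (h.de _).ne'
  have hb := h.ber Lc hm
  have hg := fun i j => fund_loc h.fam Lc hm i j
  have hF := Lc.F_eq _ hm
  have hc := Lc.crit _ hm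
  simp only at hb hg hF hc
  unfold Pool.Agent.Y519.UN.lan
  simp only [Fin.sum_univ_two, hb, hg]
  unfold mu
  have hne := (Lc.pos _ hm).ne'
  simp only at hne
  field_simp
  linear_combination (-(deriv f (T (x, ϑ (x, y))) * al T l (x, ϑ (x, y))
      * al T k (x, ϑ (x, y)) * al T j (x, ϑ (x, y))))
      * ((al S 0 (x, ϑ (x, y)) * y 0 + al S 1 (x, ϑ (x, y)) * y 1) * c2
        + (al T 0 (x, ϑ (x, y)) * fV S T 0 (x, ϑ (x, y))
          + al T 1 (x, ϑ (x, y)) * fV S T 1 (x, ϑ (x, y))) * hc)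

theorem Uni.cart (h : Uni f Φ L S T F) {d : ℝ} (hd : ∀ p, |f p| ≤ d) (x y : V2) (hy : y ≠ 0)
    (u v w : V2) :
    F x y * |∑ i, ∑ j, ∑ k, Pool.Agent.Y519.UN.cart F x y i j k * u i * v j * w k|
      ≤ d * (√(Pool.Agent.Y519.UN.nsq F x y u) * √(Pool.Agent.Y519.UN.nsq F x y v)
        * √(Pool.Agent.Y519.UN.nsq F x y w)) := by
  obtain ⟨W, ϑ, hm, Lc⟩ := h.loc x y hy
  have hg := h.nsq Lc hm
  have hc := fun i j k => cart_loc h.fam Lc hm i j k
  simp only at hg hc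
  have hpos : 0 < F x y := Lc.pos _ hm
  have e : ∑ i, ∑ j, ∑ k, Pool.Agent.Y519.UN.cart F x y i j k * u i * v j * w k
      = f (T (x, ϑ (x, y))) * av T u (x, ϑ (x, y)) * av T v (x, ϑ (x, y))
        * av T w (x, ϑ (x, y)) / F x y := by
    simp only [Fin.sum_univ_two, hc]
    unfold av
    field_simp
  have hs : ∀ v : V2, |av T v (x, ϑ (x, y))| ≤ √(Pool.Agent.Y519.UN.nsq F x y v) := by
    intro v
    rw [hg]
    apply Real.abs_le_sqrt
    nlinarith [sq_nonneg (av S v (x, ϑ (x, y)))]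
  rw [e, abs_div, abs_of_pos hpos, mul_div_cancel₀ _ hpos.ne', abs_mul, abs_mul, abs_mul]
  have hd0 : 0 ≤ d := (abs_nonneg _).trans (hd 0)
  calc |f (T (x, ϑ (x, y)))| * |av T u (x, ϑ (x, y))| * |av T v (x, ϑ (x, y))|
        * |av T w (x, ϑ (x, y))|
      = |f (T (x, ϑ (x, y)))| * (|av T u (x, ϑ (x, y))| * |av T v (x, ϑ (x, y))|
        * |av T w (x, ϑ (x, y))|) := by ring
    _ ≤ _ := by
      gcongr
      · exact hd _
      · exact hs u
      · exact hs v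
      · exact hs w

/-- not a Berwald metric at any point -/
theorem Uni.notBer (h : Uni f Φ L S T F) (x : V2) :
    ∃ y : V2, y ≠ 0 ∧ ∃ i, Pool.Agent.Y519.UN.ber F x y i i i i ≠ 0 := by
  -- a zero of `T`
  obtain ⟨θ, -, hT0⟩ := exists_hasDerivAt_eq_zero (f := fun s => S (x, s))
      (f' := fun s => T (x, s)) (a := 0) (b := L) h.Lpos
      (fun s _ => (h.fam.S_der x s).continuousAt.continuousWithinAt)
      (by have := h.perS x 0
          rw [zero_add] at this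
          exact this.symm)
      (fun s _ => h.fam.S_der x s)
  have hD := (h.de (x, θ)).ne'
  obtain ⟨d1, d2, d3, d4⟩ := dual_rel (S := S) (T := T) (x, θ) hD
  set y : V2 := fun i => eV S T i (x, θ) with hy
  have hb : dx T x θ y = 0 := by rw [dx_eq]; exact d3
  have ha : dx S x θ y = 1 := by rw [dx_eq]; exact d1
  have hy0 : y ≠ 0 := by
    intro h0
    rw [h0] at ha
    simp [dx] at ha
    have : ((0 : V2), (0 : ℝ)) = (0 : QT) := rfl
    rw [this, map_zero] at ha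
    exact zero_ne_one ha
  obtain ⟨W, ϑ, hm, Lc⟩ := h.loc x y hy0
  have hb' : dx T x (ϑ (x, y)) y = 0 := by rw [dx_eq]; exact Lc.crit _ hm
  have hFp : 0 < F x y := Lc.pos _ hm
  have ha' : 0 < dx S x (ϑ (x, y)) y := by
    rw [dx_eq, ← Lc.F_eq _ hm]
    exact hFp
  obtain ⟨n, hn⟩ := h.uniq x θ (ϑ (x, y)) y hb (by rw [ha]; exact one_pos) hb' ha'
  have hTper1 : ∀ θ, T (x, θ + L) = T (x, θ) := by
    intro θ
    have e1 : HasDerivAt (fun s => S (x, s + L)) (T (x, θ + L)) θ := by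
      have := (h.fam.S_der x (θ + L)).comp_add_const θ L
      exact this
    have e2 : (fun s => S (x, s + L)) = fun s => S (x, s) := funext fun s => h.perS x s
    rw [e2] at e1
    exact e1.unique (h.fam.S_der x θ)
  have hTper : T (x, ϑ (x, y)) = 0 := by
    have hper : Function.Periodic (fun s => T (x, s)) L := hTper1
    have := hper.int_mul n θ
    rw [hn]
    exact this.trans hT0
  have hfne : deriv f (T (x, ϑ (x, y))) ≠ 0 := by rw [hTper]; exact h.fder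
  obtain ⟨c1, c2, c3, c4⟩ := dual_rel (S := S) (T := T) (x, ϑ (x, y)) (h.de _).ne'
  refine ⟨y, hy0, ?_⟩
  by_contra hcon
  push Not at hcon
  have hz : ∀ i : Fin 2, al T i (x, ϑ (x, y)) * fV S T i (x, ϑ (x, y)) = 0 := by
    intro i
    have k1 := hcon i
    have e := h.ber Lc hm i i i i
    simp only at e
    rw [e, div_eq_zero_iff] at k1
    rcases k1 with k1 | k1
    · unfold mu at k1
      simp only [mul_eq_zero] at k1
      rcases k1 with ((((k | k) | k) | k) | k)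
      · exact absurd k hfne
      · rw [k, mul_zero]
      · rw [k, zero_mul]
      · rw [k, zero_mul]
      · rw [k, zero_mul]
    · exact absurd k1 hFp.ne'
  rw [hz 0, hz 1] at c4
  norm_num at c4

theorem main (δ : ℝ) (hδ : 0 < δ) : ∃ F : V2 → V2 → ℝ, IsFinsler F ∧
    (∀ x x' y, x 1 = x' 1 → F x y = F x' y) ∧
    (∀ x y, y ≠ 0 → ∀ j k l, Pool.Agent.Y519.UN.lan F x y j k l = 0) ∧
    (∀ x y, y ≠ 0 → ∀ u v w : V2,
      F x y * |∑ i, ∑ j, ∑ k, Pool.Agent.Y519.UN.cart F x y i j k * u i * v j * w k|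
        ≤ δ * (√(Pool.Agent.Y519.UN.nsq F x y u) * √(Pool.Agent.Y519.UN.nsq F x y v)
        * √(Pool.Agent.Y519.UN.nsq F x y w))) ∧
    ∀ x, ∃ y, y ≠ 0 ∧ ∃ i, Pool.Agent.Y519.UN.ber F x y i i i i ≠ 0 := by
  obtain ⟨f, Φ, L, S, T, F, h, hd⟩ := exists_uni δ hδ
  exact ⟨F, h.finsler, h.trans, fun x y hy j k l => h.lan x y hy j k l,
    fun x y hy u v w => h.cart hd x y hy u v w, fun x => h.notBer x⟩

end

end Pool.Agent.Y519.UN
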