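import Pool.Agent.W668.Uni.Geo5
import Pool.Agent.Y519.UN.Defs

/-!
# The Finsler metric of a family of solutions: fundamental tensor, Cartan tensor, spray

The computations of `Pool.Agent.W668.Uni.Geo` for a family `S`, `T` on the whole plane, with the
Cartan tensor in addition.
-/

set_option autoImplicit false

open Set MeasureTheory
open scoped ContDiff Topology

namespace Pool.Agent.Y519.UN

open Pool.Agent.W668.Uni Pool.Agent.W668.Uni.Geo

noncomputable section

theorem fund_eq (F : V2 → V2 → ℝ) (x y : V2) (i j : Fin 2) : fund F x y i j = gF F x y j i := rfl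

theorem spr_eq (F : V2 → V2 → ℝ) (x y : V2) : spr F x y = GF F x y := by
  have hr : (fun l => 1 / 4 * (∑ k, pd k (fun z => pd l (fun u => F z u ^ 2) y) x * y k
      - pd l (fun z => F z y ^ 2) x)) = rF F x y := rfl
  unfold spr
  rw [hr, Matrix.inv_def, Matrix.adjugate_fin_two, Matrix.det_fin_two, Ring.inverse_eq_inv']
  funext i
  simp only [Matrix.mulVec, dotProduct, Fin.sum_univ_two, Matrix.smul_apply, smul_eq_mul,
    Matrix.of_apply, fund_eq, GF]
  obtain rfl | rfl : i = 0 ∨ i = 1 := by fin_cases i <;> simp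
  · simp only [Fin.isValue, if_true, Matrix.cons_val_zero, Matrix.cons_val_one,
      Matrix.cons_val', Matrix.cons_val_fin_one]
    ring
  · simp only [Fin.isValue, one_ne_zero, if_false, Matrix.cons_val_zero, Matrix.cons_val_one,
      Matrix.cons_val', Matrix.cons_val_fin_one]
    ring

variable {f Φ : ℝ → ℝ} {S T : QT → ℝ} {F : V2 → V2 → ℝ} {W : Set VV} {ϑ : VV → ℝ}

/-- the derivative of the coefficients of `α` in a `y` direction -/
theorem alS_y (h : Fam f Φ S T) (L : Loc S T F W ϑ) {q : VV} (hq : q ∈ W) (i : Fin 2) (v : V2) :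
    HasDerivAt (fun s : ℝ => al S i (q.1 + s • (0 : V2),
        ϑ (q.1 + s • (0 : V2), q.2 + s • v)))
      (al T i (q.1, ϑ q) * (av T v (q.1, ϑ q) / F q.1 q.2)) 0 := by
  have h1 := L.thd h hq 0 v
  have e0 : ϑ (q.1 + (0 : ℝ) • (0 : V2), q.2 + (0 : ℝ) • v) = ϑ q := by rw [line_zero]
  have h2 := h.path_alS i q.1 0 _ _ h1
  rw [e0] at h2
  refine h2.congr_deriv ?_
  rw [sv_zero]
  simp

theorem alT_y (h : Fam f Φ S T) (L : Loc S T F W ϑ) {q : VV} (hq : q ∈ W) (i : Fin 2) (v : V2) :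
    HasDerivAt (fun s : ℝ => al T i (q.1 + s • (0 : V2),
        ϑ (q.1 + s • (0 : V2), q.2 + s • v)))
      ((f (T (q.1, ϑ q)) * al T i (q.1, ϑ q) - al S i (q.1, ϑ q))
        * (av T v (q.1, ϑ q) / F q.1 q.2)) 0 := by
  have h1 := L.thd h hq 0 v
  have e0 : ϑ (q.1 + (0 : ℝ) • (0 : V2), q.2 + (0 : ℝ) • v) = ϑ q := by rw [line_zero]
  have h2 := h.path_alT i q.1 0 _ _ h1
  rw [e0] at h2
  refine h2.congr_deriv ?_
  rw [sv_zero]
  simp

/-- the fundamental tensor -/
theorem fund_loc (h : Fam f Φ S T) (L : Loc S T F W ϑ) {q : VV} (hq : q ∈ W) (i j : Fin 2) :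
    fund F q.1 q.2 i j = al S i (q.1, ϑ q) * al S j (q.1, ϑ q)
      + al T i (q.1, ϑ q) * al T j (q.1, ϑ q) := by
  rw [fund_eq, L.gF_eq h hq]
  ring

/-- the Cartan tensor -/
theorem cart_loc (h : Fam f Φ S T) (L : Loc S T F W ϑ) {q : VV} (hq : q ∈ W) (i j k : Fin 2) :
    cart F q.1 q.2 i j k = f (T (q.1, ϑ q)) * al T i (q.1, ϑ q) * al T j (q.1, ϑ q)
      * al T k (q.1, ϑ q) / F q.1 q.2 := by
  unfold cart pd
  have hev : (fun u => fund F q.1 u i j) =ᶠ[𝓝 q.2] fun u =>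
      al S i (q.1, ϑ (q.1, u)) * al S j (q.1, ϑ (q.1, u))
        + al T i (q.1, ϑ (q.1, u)) * al T j (q.1, ϑ (q.1, u)) := by
    filter_upwards [slice_ev L.opn hq] with y hy
    exact fund_loc h L hy i j
  rw [hev.fderiv_eq]
  set H : VV → ℝ := fun p => al S i (p.1, ϑ p) * al S j (p.1, ϑ p)
    + al T i (p.1, ϑ p) * al T j (p.1, ϑ p) with hH
  have hHs : ContDiffOn ℝ ∞ H W :=
    ((L.comp_smooth (al_smooth h.S_smooth i)).mul (L.comp_smooth (al_smooth h.S_smooth j))).add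
    ((L.comp_smooth (al_smooth h.T_smooth i)).mul (L.comp_smooth (al_smooth h.T_smooth j)))
  have hd : DifferentiableAt ℝ H q :=
    (hHs.contDiffAt (L.opn.mem_nhds hq)).differentiableAt (by simp)
  have h1 := ((alS_y h L hq i (Pi.single k 1)).mul (alS_y h L hq j (Pi.single k 1))).add
    ((alT_y h L hq i (Pi.single k 1)).mul (alT_y h L hq j (Pi.single k 1)))
  have h2 := fd_y (H := H) hd (Pi.single k 1) _ h1
  have e0 : ϑ (q.1 + (0 : ℝ) • (0 : V2), q.2 + (0 : ℝ) • (Pi.single k 1 : V2)) = ϑ q := by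
    rw [line_zero]
  rw [show fderiv ℝ (fun u => al S i (q.1, ϑ (q.1, u)) * al S j (q.1, ϑ (q.1, u))
    + al T i (q.1, ϑ (q.1, u)) * al T j (q.1, ϑ (q.1, u))) q.2 (Pi.single k 1) = _ from h2, e0]
  simp only [smul_zero, add_zero, av_single]
  have hne := (L.pos q hq).ne'
  field_simp
  ring

end

end Pool.Agent.Y519.UN
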