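import Pool.Agent.Y519.UN.Iso

/-!
# The periodic family of solutions, on a flow-invariant annulus

This follows `Pool.Agent.W230.Uni.per`; in addition we keep the bound of `f`, the group law and the
fact that all orbits through `(Φ y, y)`, `1/2 < y < 3/4`, lie in the open set `U`.
-/

set_option autoImplicit false

open Set MeasureTheory Filter
open scoped ContDiff Topology NNReal

namespace Pool.Agent.Y519.UN

open Pool.Agent.W668.Uni Pool.Agent.W230.Uni

noncomputable section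

theorem per_small (d : ℝ) (hd : 0 < d) :
    ∃ (f Φ : ℝ → ℝ) (L : ℝ) (U : Set (Fin 2 → ℝ)) (S T : (Fin 2 → ℝ) × ℝ → ℝ),
      PerData f Φ L U S T ∧ (∀ p, |f p| ≤ d) ∧
      (∀ (x : Fin 2 → ℝ) (s θ : ℝ), S (![S (x, s), T (x, s)], θ) = S (x, s + θ) ∧
        T (![S (x, s), T (x, s)], θ) = T (x, s + θ)) ∧
      ∀ (s : ℝ), ∀ y ∈ Ioo (1 / 2 : ℝ) (3 / 4),
        (![S (![Φ y, y], s), T (![Φ y, y], s)] : Fin 2 → ℝ) ∈ U := by
  obtain ⟨f, τ, hf, hodd, hsm, hsmd, hd0, hτ, hQ⟩ := iso_small d hd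
  have horb := Pool.Agent.W701.UniOrb.orb
  have hflow := Pool.Agent.W803.Uni.flow_main
  set Φ : ℝ → ℝ := fun p => ∫ s in (0 : ℝ)..p, f s with hΦdef
  have hfc : Continuous f := hf.continuous
  have hΦd : ∀ p, HasDerivAt Φ (f p) p := fun p =>
    intervalIntegral.integral_hasDerivAt_right (hfc.intervalIntegrable _ _)
      hfc.aestronglyMeasurable.stronglyMeasurableAtFilter hfc.continuousAt
  have hΦdiff : Differentiable ℝ Φ := fun p => (hΦd p).differentiableAt
  have hΦder : deriv Φ = f := funext fun p => (hΦd p).deriv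
  have hΦs : ContDiff ℝ ∞ Φ := by
    rw [contDiff_infty_iff_deriv]
    exact ⟨hΦdiff, by rw [hΦder]; exact hf⟩
  have hΦb : ∀ p, |deriv Φ p| ≤ 1 / 100 := fun p => by rw [hΦder]; exact hsm p
  obtain ⟨S, T, hS, hT, hST⟩ := hflow Φ hΦs hΦb
  -- the group property
  have hgrp : ∀ (x : Fin 2 → ℝ) (s θ : ℝ),
      S (![S (x, s), T (x, s)], θ) = S (x, s + θ) ∧
      T (![S (x, s), T (x, s)], θ) = T (x, s + θ) := by
    intro x s
    have sh : ∀ θ : ℝ, HasDerivAt (fun θ : ℝ => s + θ) 1 θ := fun θ =>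
      (hasDerivAt_id θ).const_add s
    have h := uniq_sol (Φ := Φ) hΦb hΦdiff
      (v := fun θ => S (![S (x, s), T (x, s)], θ)) (p := fun θ => T (![S (x, s), T (x, s)], θ))
      (v' := fun θ => S (x, s + θ)) (p' := fun θ => T (x, s + θ))
      (fun θ => (hST _ θ).1) (fun θ => (hST _ θ).2.1)
      (fun θ => by
        have := ((hST x (s + θ)).1).comp θ (sh θ)
        rw [mul_one] at this
        exact this)
      (fun θ => by
        have := ((hST x (s + θ)).2.1).comp θ (sh θ)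
        rw [mul_one] at this
        exact this)
      (by simp [(hST _ 0).2.2.1]) (by simp [(hST _ 0).2.2.2])
    exact h
  -- the starting points
  have hperY : ∀ y ∈ Ioo (1 / 2 : ℝ) (3 / 4), ∀ θ : ℝ,
      S (![Φ y, y], θ + 2 * τ) = S (![Φ y, y], θ) := by
    intro y hy
    set x : Fin 2 → ℝ := ![Φ y, y] with hx
    have hx0 : x 0 = Φ y := by simp [hx]
    have hx1 : x 1 = y := by simp [hx]
    have h := horb f hf hodd y τ (by linarith [hy.1]) (hQ y hy)
      (fun t => T (x, t)) (fun t => Φ (T (x, t)) - S (x, t))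
      (fun t => (hST x t).2.1)
      (fun t => by
        have h1 := (hΦd (T (x, t))).comp t (hST x t).2.1
        exact h1.sub (hST x t).1)
      (by rw [(hST x 0).2.2.2, hx1])
      (by rw [(hST x 0).2.2.2, (hST x 0).2.2.1, hx1, hx0, sub_self])
    intro θ
    obtain ⟨ha, hb⟩ := h θ
    rw [ha] at hb
    linarith
  -- the parametrisation
  set m : ℝ × ℝ → (Fin 2 → ℝ) := fun z =>
    ![S (![Φ z.2, z.2], z.1), T (![Φ z.2, z.2], z.1)] with hm
  have hxs : ContDiff ℝ ∞ (fun z : ℝ × ℝ => ((![Φ z.2, z.2] : Fin 2 → ℝ), z.1)) := by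
    apply ContDiff.prodMk _ contDiff_fst
    rw [contDiff_pi]
    intro i
    fin_cases i
    · exact hΦs.comp contDiff_snd
    · exact contDiff_snd
  have hms : ContDiff ℝ ∞ m := by
    rw [contDiff_pi]
    intro i
    fin_cases i
    · exact hS.comp hxs
    · exact hT.comp hxs
  set A : Set (Fin 2 → ℝ) := m '' (univ ×ˢ Ioo (1 / 2 : ℝ) (3 / 4)) with hA
  have hopen : IsOpen ((univ : Set ℝ) ×ˢ Ioo (1 / 2 : ℝ) (3 / 4)) := isOpen_univ.prod isOpen_Ioo
  have hloc : ∀ y₀ ∈ Ioo (1 / 2 : ℝ) (3 / 4), A ∈ 𝓝 (m (0, y₀)) := by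
    intro y₀ hy₀
    have hy0 : y₀ ≠ 0 := by linarith [hy₀.1]
    set z₀ : ℝ × ℝ := (0, y₀) with hz₀
    have hmstrict : HasStrictFDerivAt m (fderiv ℝ m z₀) z₀ :=
      hms.contDiffAt.hasStrictFDerivAt (by simp)
    have hmd : HasFDerivAt m (fderiv ℝ m z₀) z₀ := hmstrict.hasFDerivAt
    have hd1 : fderiv ℝ m z₀ (1, 0) = ![y₀, 0] := by
      have hc : HasDerivAt (fun s : ℝ => ((s, y₀) : ℝ × ℝ)) (1, 0) 0 :=
        (hasDerivAt_id (0 : ℝ)).prodMk (hasDerivAt_const _ _)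
      have h1 : HasDerivAt (fun s : ℝ => m (s, y₀)) (fderiv ℝ m z₀ (1, 0)) 0 :=
        HasFDerivAt.comp_hasDerivAt (f := fun s : ℝ => ((s, y₀) : ℝ × ℝ)) (0 : ℝ) hmd hc
      have h2 : HasDerivAt (fun s : ℝ => m (s, y₀)) ![y₀, 0] 0 := by
        rw [hasDerivAt_pi]
        intro i
        fin_cases i
        · have := (hST ![Φ y₀, y₀] 0).1
          rw [(hST ![Φ y₀, y₀] 0).2.2.2] at this
          simpa [hm] using this
        · have := (hST ![Φ y₀, y₀] 0).2.1
          rw [(hST ![Φ y₀, y₀] 0).2.2.2, (hST ![Φ y₀, y₀] 0).2.2.1] at this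
          simpa [hm] using this
      exact h1.unique h2
    have hd2 : fderiv ℝ m z₀ (0, 1) = ![f y₀, 1] := by
      have hc : HasDerivAt (fun y : ℝ => ((0, y) : ℝ × ℝ)) (0, 1) y₀ :=
        (hasDerivAt_const _ _).prodMk (hasDerivAt_id _)
      have h1 : HasDerivAt (fun y : ℝ => m (0, y)) (fderiv ℝ m z₀ (0, 1)) y₀ :=
        HasFDerivAt.comp_hasDerivAt (f := fun y : ℝ => ((0, y) : ℝ × ℝ)) (y₀ : ℝ) hmd hc
      have h2 : HasDerivAt (fun y : ℝ => m (0, y)) ![f y₀, 1] y₀ := by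
        have he : (fun y : ℝ => m (0, y)) = fun y : ℝ => (![Φ y, y] : Fin 2 → ℝ) := by
          funext y
          ext i
          fin_cases i
          · simp [hm, (hST ![Φ y, y] 0).2.2.1]
          · simp [hm, (hST ![Φ y, y] 0).2.2.2]
        rw [he, hasDerivAt_pi]
        intro i
        fin_cases i
        · simpa using hΦd y₀
        · exact hasDerivAt_id y₀
      exact h1.unique h2
    have hrange : (fderiv ℝ m z₀).range = ⊤ := by
      rw [eq_top_iff]
      intro z _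
      refine ⟨((z 0 - z 1 * f y₀) / y₀, z 1), ?_⟩
      have hdec : (((z 0 - z 1 * f y₀) / y₀, z 1) : ℝ × ℝ)
          = ((z 0 - z 1 * f y₀) / y₀) • ((1, 0) : ℝ × ℝ) + (z 1) • ((0, 1) : ℝ × ℝ) := by
        ext <;> simp
      rw [hdec]
      simp only [ContinuousLinearMap.coe_coe, map_add, map_smul, hd1, hd2]
      ext i
      fin_cases i
      · simp
        field_simp
        ring
      · simp
    have hnhds : map m (𝓝 z₀) = 𝓝 (m z₀) := hmstrict.map_nhds_eq_of_surj hrange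
    have hmem : ((univ : Set ℝ) ×ˢ Ioo (1 / 2 : ℝ) (3 / 4)) ∈ 𝓝 z₀ :=
      hopen.mem_nhds ⟨trivial, hy₀⟩
    rw [← hnhds]
    exact image_mem_map hmem
  -- the flow
  set φ : ℝ → (Fin 2 → ℝ) → (Fin 2 → ℝ) := fun s x => ![S (x, s), T (x, s)] with hφ
  have hφc : ∀ s, Continuous (φ s) := by
    intro s
    refine continuous_pi fun i => ?_
    fin_cases i
    · exact hS.continuous.comp (by fun_prop)
    · exact hT.continuous.comp (by fun_prop)
  have hφg : ∀ s t x, φ t (φ s x) = φ (s + t) x := by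
    intro s t x
    ext i
    fin_cases i
    · exact (hgrp x s t).1
    · exact (hgrp x s t).2
  have hφ0 : ∀ x, φ 0 x = x := by
    intro x
    ext i
    fin_cases i
    · exact (hST x 0).2.2.1
    · exact (hST x 0).2.2.2
  have hmφ : ∀ s y, m (s, y) = φ s ![Φ y, y] := fun s y => rfl
  have hAall : ∀ s₀, ∀ y₀ ∈ Ioo (1 / 2 : ℝ) (3 / 4), A ∈ 𝓝 (m (s₀, y₀)) := by
    intro s₀ y₀ hy₀
    have h1 : φ (-s₀) (m (s₀, y₀)) = m (0, y₀) := by
      rw [hmφ, hφg, hmφ]
      simp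
    have h2 : (φ (-s₀)) ⁻¹' A ∈ 𝓝 (m (s₀, y₀)) := by
      have := (hφc (-s₀)).continuousAt (x := m (s₀, y₀))
      refine this ?_
      rw [h1]
      exact hloc y₀ hy₀
    refine mem_of_superset h2 ?_
    rintro x ⟨⟨s, y⟩, ⟨-, hy⟩, hx⟩
    refine ⟨(s + s₀, y), ⟨trivial, hy⟩, ?_⟩
    have h3 : φ s₀ (φ (-s₀) x) = x := by
      rw [hφg, neg_add_cancel, hφ0]
    rw [← h3, ← hx, hmφ, hmφ, hφg]
  have hperA : ∀ x ∈ A, ∀ θ, S (x, θ + 2 * τ) = S (x, θ) := by
    rintro x ⟨⟨s, y⟩, ⟨_, hy⟩, rfl⟩ θ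
    have h1 := (hgrp ![Φ y, y] s (θ + 2 * τ)).1
    have h2 := (hgrp ![Φ y, y] s θ).1
    have h3 := hperY y hy (s + θ)
    have e : m (s, y) = ![S (![Φ y, y], s), T (![Φ y, y], s)] := rfl
    rw [e, h1, h2, ← h3]
    ring_nf
  have hτ' := abs_le.1 hτ
  have hpi := Real.pi_gt_three
  refine ⟨f, Φ, 2 * τ, interior A, S, T, ?_, hsmd, hgrp, fun s y hy =>
    mem_interior_iff_mem_nhds.2 (hAall s y hy)⟩
  refine
    { f_smooth := hf
      f_small := hsm
      f_der := hd0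
      Φ_der := hΦd
      L_near := ?_
      U_open := isOpen_interior
      S_smooth := hS
      T_smooth := hT
      S_der := fun x θ => (hST x θ).1
      T_der := fun x θ => (hST x θ).2.1
      S_zero := fun x => (hST x 0).2.2.1
      T_zero := fun x => (hST x 0).2.2.2
      per := fun x hx θ => hperA x (interior_subset hx) θ
      pt := ?_ }
  · rw [abs_le]
    constructor <;> linarith [hτ'.1, hτ'.2]
  · have h58 : (5 / 8 : ℝ) ∈ Ioo (1 / 2 : ℝ) (3 / 4) := by constructor <;> norm_num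
    refine ⟨m (0, 5 / 8), mem_interior_iff_mem_nhds.2 (hAall 0 _ h58), ?_⟩
    have hx : m (0, 5 / 8) ∈ A := mem_of_mem_nhds (hAall 0 _ h58)
    have hp := hperA _ hx 0
    rw [zero_add] at hp
    obtain ⟨θ, _, hθ⟩ := exists_hasDerivAt_eq_zero (f := fun s => S (m (0, 5 / 8), s))
      (f' := fun s => T (m (0, 5 / 8), s)) (a := 0) (b := 2 * τ) (by linarith [hτ'.1])
      (fun s _ => (hST (m (0, 5 / 8)) s).1.continuousAt.continuousWithinAt) hp.symm
      (fun s _ => (hST (m (0, 5 / 8)) s).1)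
    exact ⟨θ, hθ⟩

end

end Pool.Agent.Y519.UN
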