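import Pool.Agent.Y519.UN.Per
import Pool.Agent.Y519.UN.Met
import Pool.Agent.W87.UniTheta2

/-!
# The family on the whole plane

The family of solutions on the isochronous annulus is pulled back to the universal cover of a
smaller annulus, in coordinates `(x 0, x 1)`: `x 0` is the time along the orbits, and `x 1`
parametrises the orbits.
-/

set_option autoImplicit false

open Set MeasureTheory Filter
open scoped ContDiff Topology

namespace Pool.Agent.Y519.UN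

open Pool.Agent.W668.Uni Pool.Agent.W668.Uni.Geo

noncomputable section

/-- the label of the orbit -/
def yy (t : ℝ) : ℝ := 5 / 8 + 1 / 20 * Real.arctan t

theorem yy_mem (t : ℝ) : yy t ∈ Ioo (1 / 2 : ℝ) (3 / 4) := by
  have h1 := Real.arctan_lt_pi_div_two t
  have h2 := Real.neg_pi_div_two_lt_arctan t
  have h3 := Real.pi_lt_d2
  unfold yy
  constructor
  · norm_num at h3 ⊢
    linarith
  · norm_num at h3 ⊢
    linarith

theorem yy_smooth : ContDiff ℝ ∞ yy :=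
  contDiff_const.add (contDiff_const.mul Real.contDiff_arctan)

theorem yy_der (t : ℝ) : HasDerivAt yy (1 / 20 * (1 / (1 + t ^ 2))) t :=
  ((Real.hasDerivAt_arctan t).const_mul _).const_add _

/-- the starting point of the orbit -/
def cc (Φ : ℝ → ℝ) (x : V2) : V2 := ![Φ (yy (x 1)), yy (x 1)]

/-- the pulled back function -/
def tl (Φ : ℝ → ℝ) (S : QT → ℝ) (q : QT) : ℝ := S (cc Φ q.1, q.1 0 + q.2)

/-- the map of the plane to the annulus -/
def ps (Φ : ℝ → ℝ) (S T : QT → ℝ) (x : V2) : V2 := ![S (cc Φ x, x 0), T (cc Φ x, x 0)]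

/-- the pulled back Finsler function -/
def Ft (Φ : ℝ → ℝ) (S T : QT → ℝ) (F : V2 → V2 → ℝ) (x y : V2) : ℝ :=
  F (ps Φ S T x) (fderiv ℝ (ps Φ S T) x y)

/-- the data on the annulus -/
structure Ann (f Φ : ℝ → ℝ) (L : ℝ) (U : Set V2) (S T : QT → ℝ) : Prop where
  per : PerData f Φ L U S T
  grp : ∀ (x : V2) (s θ : ℝ), S (![S (x, s), T (x, s)], θ) = S (x, s + θ) ∧
    T (![S (x, s), T (x, s)], θ) = T (x, s + θ)
  mem : ∀ (s : ℝ), ∀ y ∈ Ioo (1 / 2 : ℝ) (3 / 4),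
    (![S (![Φ y, y], s), T (![Φ y, y], s)] : V2) ∈ U

variable {f Φ : ℝ → ℝ} {L : ℝ} {U : Set V2} {S T : QT → ℝ} {F : V2 → V2 → ℝ}

theorem cc_smooth (hΦ : ContDiff ℝ ∞ Φ) : ContDiff ℝ ∞ (cc Φ) := by
  unfold cc
  rw [contDiff_pi]
  have h1 : ContDiff ℝ ∞ (fun x : V2 => yy (x 1)) := yy_smooth.comp (contDiff_apply ℝ ℝ 1)
  intro i
  fin_cases i
  · exact hΦ.comp h1
  · exact h1

theorem tl_smooth (hΦ : ContDiff ℝ ∞ Φ) (hS : ContDiff ℝ ∞ S) : ContDiff ℝ ∞ (tl Φ S) := by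
  unfold tl
  refine hS.comp (ContDiff.prodMk ((cc_smooth hΦ).comp contDiff_fst) ?_)
  exact ((contDiff_apply ℝ ℝ 0).comp contDiff_fst).add contDiff_snd

theorem ps_smooth (hΦ : ContDiff ℝ ∞ Φ) (hS : ContDiff ℝ ∞ S) (hT : ContDiff ℝ ∞ T) :
    ContDiff ℝ ∞ (ps Φ S T) := by
  unfold ps
  rw [contDiff_pi]
  have h1 : ContDiff ℝ ∞ (fun x : V2 => ((cc Φ x, x 0) : QT)) :=
    (cc_smooth hΦ).prodMk (contDiff_apply ℝ ℝ 0)
  intro i
  fin_cases i
  · exact hS.comp h1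
  · exact hT.comp h1

theorem fam_tl (h : Fam f Φ S T) : Fam f Φ (tl Φ S) (tl Φ T) := by
  have sh : ∀ x : V2, ∀ θ : ℝ, HasDerivAt (fun θ : ℝ => x 0 + θ) 1 θ := fun x θ =>
    (hasDerivAt_id θ).const_add (x 0)
  refine ⟨h.f_smooth, h.Φ_der, tl_smooth h.Φ_smooth h.S_smooth,
    tl_smooth h.Φ_smooth h.T_smooth, fun x θ => ?_, fun x θ => ?_⟩
  · have := (h.S_der (cc Φ x) (x 0 + θ)).comp θ (sh x θ)
    rw [mul_one] at this
    exact this
  · have := (h.T_der (cc Φ x) (x 0 + θ)).comp θ (sh x θ)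
    rw [mul_one] at this
    exact this

theorem Ann.tlS (h : Ann f Φ L U S T) : tl Φ S = fun q => S (ps Φ S T q.1, q.2) := by
  funext q
  exact ((h.grp (cc Φ q.1) (q.1 0) q.2).1).symm

theorem Ann.tlT (h : Ann f Φ L U S T) : tl Φ T = fun q => T (ps Φ S T q.1, q.2) := by
  funext q
  exact ((h.grp (cc Φ q.1) (q.1 0) q.2).2).symm

theorem Ann.ps_mem (h : Ann f Φ L U S T) (x : V2) : ps Φ S T x ∈ U :=
  h.mem (x 0) (yy (x 1)) (yy_mem (x 1))

theorem Ann.fam (h : Ann f Φ L U S T) : Fam f Φ S T := fam_of_per h.per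

theorem dx_comp {P : V2 → V2} (hP : ContDiff ℝ ∞ P) {g : QT → ℝ} (hg : ContDiff ℝ ∞ g)
    (x : V2) (θ : ℝ) (y : V2) :
    dx (fun q => g (P q.1, q.2)) x θ y = dx g (P x) θ (fderiv ℝ P x y) := by
  have h1 : HasFDerivAt (fun q : QT => ((P q.1, q.2) : QT))
      (((fderiv ℝ P x).comp (ContinuousLinearMap.fst ℝ V2 ℝ)).prod
        (ContinuousLinearMap.snd ℝ V2 ℝ)) (x, θ) := by
    have h2 : HasFDerivAt P (fderiv ℝ P x) ((x, θ) : QT).1 :=
      (hP.differentiable (by simp)).differentiableAt.hasFDerivAt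
    exact (h2.comp (x, θ) hasFDerivAt_fst).prodMk hasFDerivAt_snd
  have h3 : HasFDerivAt g (fderiv ℝ g (P x, θ)) ((P ((x, θ) : QT).1, ((x, θ) : QT).2)) :=
    hfda hg (P x, θ)
  have h4 := h3.comp (x, θ) h1
  unfold dx
  rw [show fderiv ℝ (fun q => g (P q.1, q.2)) (x, θ) = _ from h4.fderiv]
  simp

theorem Ann.dxS (h : Ann f Φ L U S T) (x : V2) (θ : ℝ) (y : V2) :
    dx (tl Φ S) x θ y = dx S (ps Φ S T x) θ (fderiv ℝ (ps Φ S T) x y) := by
  rw [h.tlS]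
  exact dx_comp (ps_smooth h.fam.Φ_smooth h.fam.S_smooth h.fam.T_smooth) h.fam.S_smooth x θ y

theorem Ann.dxT (h : Ann f Φ L U S T) (x : V2) (θ : ℝ) (y : V2) :
    dx (tl Φ T) x θ y = dx T (ps Φ S T x) θ (fderiv ℝ (ps Φ S T) x y) := by
  rw [h.tlT]
  exact dx_comp (ps_smooth h.fam.Φ_smooth h.fam.S_smooth h.fam.T_smooth) h.fam.T_smooth x θ y

/-! ### the Wronskian -/

theorem de_pos (h : Fam f Φ S T) (x : V2) (θ₀ : ℝ) (h0 : 0 < De S T (x, θ₀)) (θ : ℝ) :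
    0 < De S T (x, θ) := by
  have hc : Continuous (fun s : ℝ => f (T (x, s))) :=
    h.f_smooth.continuous.comp (h.T_smooth.continuous.comp (by fun_prop))
  have hI : ∀ θ, HasDerivAt (fun t => ∫ s in (0 : ℝ)..t, f (T (x, s))) (f (T (x, θ))) θ :=
    fun θ => intervalIntegral.integral_hasDerivAt_right (hc.intervalIntegrable _ _)
      (hc.stronglyMeasurableAtFilter _ _) hc.continuousAt
  set J : ℝ → ℝ := fun t => ∫ s in (0 : ℝ)..t, f (T (x, s)) with hJ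
  have hg : ∀ θ, HasDerivAt (fun t => De S T (x, t) * Real.exp (-(J t))) 0 θ := by
    intro θ
    have h1 := (h.hd_De x θ).mul ((hI θ).neg.exp)
    have h2 : HasDerivAt (fun t => De S T (x, t) * Real.exp (-(J t))) _ θ := h1
    convert h2 using 1
    simp only [hJ]
    ring
  have hconst : De S T (x, θ) * Real.exp (-(J θ)) = De S T (x, θ₀) * Real.exp (-(J θ₀)) :=
    is_const_of_deriv_eq_zero (fun θ => (hg θ).differentiableAt) (fun θ => (hg θ).deriv) θ θ₀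
  have hpos : 0 < De S T (x, θ₀) * Real.exp (-(J θ₀)) := mul_pos h0 (Real.exp_pos _)
  rw [← hconst] at hpos
  exact (pos_iff_pos_of_mul_pos hpos).2 (Real.exp_pos _)

theorem Ann.de_tl (h : Ann f Φ L U S T) (x : V2) (θ : ℝ) :
    0 < De (tl Φ S) (tl Φ T) (x, θ) := by
  have hF := fam_tl h.fam
  refine de_pos hF x (-(x 0)) ?_ θ
  have hy := yy_mem (x 1)
  set y' : ℝ := 1 / 20 * (1 / (1 + x 1 ^ 2)) with hy'
  have hy'p : 0 < y' := by positivity
  have hq : ∀ x : V2, ∀ g : QT → ℝ, tl Φ g (x, -(x 0)) = g (cc Φ x, 0) := by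
    intro x g
    simp [tl]
  have hθ : ∀ u : V2, HasDerivAt (fun s : ℝ => -((x + s • u) 0)) (-(u 0)) 0 := fun u =>
    (comp_line x u 0).neg
  have e0 : -((x + (0 : ℝ) • (0 : V2)) 0) = -(x 0) := by simp
  have hyl : ∀ u : V2, HasDerivAt (fun s : ℝ => yy ((x + s • u) 1)) (y' * u 1) 0 := by
    intro u
    have e : (x + (0 : ℝ) • u) 1 = x 1 := by simp
    have h1 : HasDerivAt yy y' ((x + (0 : ℝ) • u) 1) := by
      rw [e]
      exact yy_der (x 1)
    have h2 := h1.comp (0 : ℝ) (comp_line x u 1)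
    exact h2
  have hS : ∀ u : V2, al (tl Φ S) 0 (x, -(x 0)) * u 0 + al (tl Φ S) 1 (x, -(x 0)) * u 1
      = f (yy (x 1)) * (y' * u 1) + yy (x 1) * u 0 := by
    intro u
    have h1 := path_deriv hF.S_smooth x u _ _ (hθ u)
    have h2 : HasDerivAt (fun s : ℝ => tl Φ S (x + s • u, -((x + s • u) 0)))
        (f (yy (x 1)) * (y' * u 1)) 0 := by
      have e : (fun s : ℝ => tl Φ S (x + s • u, -((x + s • u) 0)))
          = fun s => Φ (yy ((x + s • u) 1)) := by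
        funext s
        rw [hq, h.per.S_zero]
        simp [cc]
      rw [e]
      have h3 : HasDerivAt Φ (f (yy (x 1))) (yy ((x + (0 : ℝ) • u) 1)) := by
        have := h.per.Φ_der (yy (x 1))
        simpa using this
      exact HasDerivAt.comp (0 : ℝ) h3 (hyl u)
    have h3 := h1.unique h2
    have h4 : fderiv ℝ (tl Φ S) (x, -((x + (0 : ℝ) • u) 0)) (0, 1) = yy (x 1) := by
      have e1 : -((x + (0 : ℝ) • u) 0) = -(x 0) := by simp
      rw [e1, congrFun hF.dS (x, -(x 0)), hq, h.per.T_zero]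
      simp [cc]
    rw [h4] at h3
    have e1 : -((x + (0 : ℝ) • u) 0) = -(x 0) := by simp
    rw [e1] at h3
    unfold al
    linarith
  have hT : ∀ u : V2, al (tl Φ T) 0 (x, -(x 0)) * u 0 + al (tl Φ T) 1 (x, -(x 0)) * u 1
      = y' * u 1 := by
    intro u
    have h1 := path_deriv hF.T_smooth x u _ _ (hθ u)
    have h2 : HasDerivAt (fun s : ℝ => tl Φ T (x + s • u, -((x + s • u) 0)))
        (y' * u 1) 0 := by
      have e : (fun s : ℝ => tl Φ T (x + s • u, -((x + s • u) 0)))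
          = fun s => yy ((x + s • u) 1) := by
        funext s
        rw [hq, h.per.T_zero]
        simp [cc]
      rw [e]
      exact hyl u
    have h3 := h1.unique h2
    have h4 : fderiv ℝ (tl Φ T) (x, -((x + (0 : ℝ) • u) 0)) (0, 1) = 0 := by
      have e1 : -((x + (0 : ℝ) • u) 0) = -(x 0) := by simp
      rw [e1, congrFun hF.dT (x, -(x 0)), hq, hq, h.per.T_zero, h.per.S_zero]
      simp [cc]
    rw [h4] at h3
    have e1 : -((x + (0 : ℝ) • u) 0) = -(x 0) := by simp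
    rw [e1] at h3
    unfold al
    linarith
  have a0 := hS (Pi.single 0 1)
  have a1 := hS (Pi.single 1 1)
  have b0 := hT (Pi.single 0 1)
  have b1 := hT (Pi.single 1 1)
  simp at a0 a1 b0 b1
  unfold De
  rw [a0, b0, b1]
  have : 0 < yy (x 1) := by linarith [hy.1]
  have := mul_pos this hy'p
  linarith

theorem Ann.inj (h : Ann f Φ L U S T) (x y : V2) (hy : fderiv ℝ (ps Φ S T) x y = 0) : y = 0 := by
  have z : ∀ g : QT → ℝ, ∀ p : V2, ∀ θ : ℝ, dx g p θ 0 = 0 := by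
    intro g p θ
    have : ((0 : V2), (0 : ℝ)) = (0 : QT) := rfl
    simp [dx, this]
  have h1 := h.dxS x 0 y
  have h2 := h.dxT x 0 y
  rw [hy, z, dx_eq] at h1
  rw [hy, z, dx_eq] at h2
  have hD := (h.de_tl x 0).ne'
  have e0 : De (tl Φ S) (tl Φ T) (x, 0) * y 0 = 0 := by
    unfold De
    linear_combination al (tl Φ T) 1 (x, 0) * h1 - al (tl Φ S) 1 (x, 0) * h2
  have e1 : De (tl Φ S) (tl Φ T) (x, 0) * y 1 = 0 := by
    unfold De
    linear_combination al (tl Φ S) 0 (x, 0) * h2 - al (tl Φ T) 0 (x, 0) * h1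
  funext i
  obtain rfl | rfl : i = 0 ∨ i = 1 := by fin_cases i <;> simp
  · exact (mul_eq_zero.1 e0).resolve_left hD
  · exact (mul_eq_zero.1 e1).resolve_left hD

/-- everything about the metric -/
structure Uni (f Φ : ℝ → ℝ) (L : ℝ) (S T : QT → ℝ) (F : V2 → V2 → ℝ) : Prop where
  fam : Fam f Φ S T
  Lpos : 0 < L
  fder : deriv f 0 ≠ 0
  de : ∀ p : QT, 0 < De S T p
  perS : ∀ x θ, S (x, θ + L) = S (x, θ)
  hom : ∀ (x y : V2) (t : ℝ), 0 < t → F x (t • y) = t * F x y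
  loc : ∀ x y : V2, y ≠ 0 → ∃ (W : Set VV) (ϑ : VV → ℝ), (x, y) ∈ W ∧ Loc S T F W ϑ
  uniq : ∀ (x : V2) (θ θ' : ℝ) (y : V2), dx T x θ y = 0 → 0 < dx S x θ y →
    dx T x θ' y = 0 → 0 < dx S x θ' y → ∃ n : ℤ, θ' = θ + n * L
  trans : ∀ (x x' y : V2), x 1 = x' 1 → F x y = F x' y

theorem Ann.uni (h : Ann f Φ L U S T)
    (hom : ∀ x ∈ U, ∀ y : Fin 2 → ℝ, ∀ t : ℝ, 0 < t → F x (t • y) = t * F x y)
    (hF2 : ∀ x ∈ U, ∀ θ : ℝ, ∀ y : Fin 2 → ℝ, dx T x θ y = 0 → 0 < dx S x θ y →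
      F x y = dx S x θ y)
    (hloc : ∀ x ∈ U, ∀ y : Fin 2 → ℝ, y ≠ 0 → ∃ (W : Set ((Fin 2 → ℝ) × (Fin 2 → ℝ)))
      (ϑ : (Fin 2 → ℝ) × (Fin 2 → ℝ) → ℝ), IsOpen W ∧ (x, y) ∈ W ∧ ContDiffOn ℝ ∞ ϑ W ∧
      ∀ q ∈ W, q.1 ∈ U ∧ F q.1 q.2 = dx S q.1 (ϑ q) q.2 ∧ dx T q.1 (ϑ q) q.2 = 0 ∧
        0 < F q.1 q.2)
    (huniq : ∀ x ∈ U, ∀ (θ θ' : ℝ) (y : Fin 2 → ℝ), dx T x θ y = 0 → 0 < dx S x θ y →
      dx T x θ' y = 0 → 0 < dx S x θ' y → ∃ n : ℤ, θ' = θ + n * L) :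
    Uni f Φ L (tl Φ S) (tl Φ T) (Ft Φ S T F) := by
  have hps := ps_smooth h.fam.Φ_smooth h.fam.S_smooth h.fam.T_smooth
  have hl : ∀ x y : V2, y ≠ 0 → ∃ (W : Set VV) (ϑ : VV → ℝ), (x, y) ∈ W ∧
      Loc (tl Φ S) (tl Φ T) (Ft Φ S T F) W ϑ := by
    intro x y hy
    have hy' : fderiv ℝ (ps Φ S T) x y ≠ 0 := fun h0 => hy (h.inj x y h0)
    obtain ⟨W, ϑ, hW, hm, hs, hq⟩ := hloc _ (h.ps_mem x) _ hy'
    set Ψ : VV → VV := fun q => (ps Φ S T q.1, fderiv ℝ (ps Φ S T) q.1 q.2) with hΨ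
    have hΨs : ContDiff ℝ ∞ Ψ := by
      refine (hps.comp contDiff_fst).prodMk ?_
      have h1 : ContDiff ℝ ∞ (fderiv ℝ (ps Φ S T)) :=
        hps.fderiv_right (m := ∞) (by exact_mod_cast le_top)
      exact (h1.comp contDiff_fst).clm_apply contDiff_snd
    refine ⟨Ψ ⁻¹' W, fun q => ϑ (Ψ q), hm, hW.preimage hΨs.continuous,
      hs.comp hΨs.contDiffOn (fun q hq => hq), ?_, ?_, ?_⟩
    · intro q hqW
      have := (hq (Ψ q) hqW).2.1
      rw [← dx_eq, h.dxS]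
      exact this
    · intro q hqW
      have := (hq (Ψ q) hqW).2.2.1
      rw [← dx_eq, h.dxT]
      exact this
    · intro q hqW
      exact (hq (Ψ q) hqW).2.2.2
  have hhom : ∀ (x y : V2) (t : ℝ), 0 < t → Ft Φ S T F x (t • y) = t * Ft Φ S T F x y := by
    intro x y t ht
    unfold Ft
    rw [map_smul]
    exact hom _ (h.ps_mem x) _ t ht
  refine ⟨fam_tl h.fam, ?_, h.per.f_der, fun p => h.de_tl p.1 p.2, ?_, hhom, hl, ?_, ?_⟩
  · have h1 := (abs_le.1 h.per.L_near).1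
    have h2 := Real.pi_gt_three
    linarith
  · intro x θ
    rw [h.tlS]
    exact h.per.per _ (h.ps_mem x) θ
  · intro x θ θ' y h1 h2 h3 h4
    rw [h.dxT] at h1 h3
    rw [h.dxS] at h2 h4
    exact huniq _ (h.ps_mem x) θ θ' _ h1 h2 h3 h4
  · intro x x' y hx
    by_cases hy : y = 0
    · have z : ∀ x : V2, Ft Φ S T F x 0 = 0 := by
        intro x
        have := hhom x 0 2 (by norm_num)
        rw [smul_zero] at this
        linarith
      rw [hy, z, z]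
    · obtain ⟨W, ϑ, hm, Lc⟩ := hl x' y hy
      have h1 := Lc.crit _ hm
      have h2 := Lc.pos _ hm
      have h3 := Lc.F_eq _ hm
      simp only at h1 h2 h3
      rw [← dx_eq] at h1 h3
      -- `x = x' + a e₀`
      have hsh : ∀ g : QT → ℝ, ContDiff ℝ ∞ g → ∀ θ : ℝ,
          dx (tl Φ g) x' θ y = dx (tl Φ g) x (θ + (x' 0 - x 0)) y := by
        intro g hg θ
        have hgt := tl_smooth h.fam.Φ_smooth hg
        have e : ∀ s : ℝ, tl Φ g (x' + s • y, θ) = tl Φ g (x + s • y, θ + (x' 0 - x 0)) := by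
          intro s
          unfold tl
          have e1 : cc Φ (x' + s • y) = cc Φ (x + s • y) := by
            unfold cc
            simp [hx]
          rw [e1]
          congr 2
          simp
          ring
        have p1 := path_deriv hgt x' y (fun _ => θ) 0 (hasDerivAt_const _ _)
        have p2 := path_deriv hgt x y (fun _ => θ + (x' 0 - x 0)) 0 (hasDerivAt_const _ _)
        simp only [e] at p1
        have := p1.unique p2
        rw [dx_eq, dx_eq]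
        unfold al
        linarith
      have h1' : dx (tl Φ T) x (ϑ (x', y) + (x' 0 - x 0)) y = 0 := by
        rw [← hsh T h.fam.T_smooth]
        exact h1
      have h3' : dx (tl Φ S) x (ϑ (x', y) + (x' 0 - x 0)) y = Ft Φ S T F x' y := by
        rw [← hsh S h.fam.S_smooth]
        exact h3.symm
      rw [← h3']
      rw [h.dxT] at h1'
      have h4 : 0 < dx (tl Φ S) x (ϑ (x', y) + (x' 0 - x 0)) y := by rw [h3']; exact h2
      rw [h.dxS] at h4 ⊢
      exact hF2 _ (h.ps_mem x) _ _ h1' h4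

theorem exists_uni (d : ℝ) (hd : 0 < d) :
    ∃ (f Φ : ℝ → ℝ) (L : ℝ) (S T : QT → ℝ) (F : V2 → V2 → ℝ),
      Uni f Φ L S T F ∧ ∀ p, |f p| ≤ d := by
  obtain ⟨f, Φ, L, U, S, T, hP, hfd, hg, hm⟩ := per_small d hd
  have hA : Ann f Φ L U S T := ⟨hP, hg, hm⟩
  obtain ⟨⟨F, hom, hF2, hloc⟩, huniq⟩ := Pool.Agent.W87.UniTheta.theta2 f Φ L U S T hP
  exact ⟨f, Φ, L, tl Φ S, tl Φ T, Ft Φ S T F, hA.uni hom hF2 hloc huniq, hfd⟩

end

end Pool.Agent.Y519.UN
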